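import Mathlib

open Set FirstOrder FirstOrder.Language
open Cardinal hiding univ

namespace Pool.Agent.Results.MP_50aa38_lc.NotFirstOrder

/-- function symbols: join, meet, complement, zero, one -/
inductive Fn : ℕ → Type
  | sup : Fn 2
  | inf : Fn 2
  | cpl : Fn 1
  | zero : Fn 0
  | one : Fn 0

/-- the relation symbol for contact -/
inductive Rl : ℕ → Type
  | con : Rl 2

/-- the language of contact algebras -/
def L : FirstOrder.Language := ⟨Fn, Rl⟩

/-- a Boolean algebra with a binary relation as an `L`-structure -/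
@[reducible] def str (B : Type) [BooleanAlgebra B] (C : B → B → Prop) : L.Structure B where
  funMap := fun {_} f x => match f with
    | .sup => x 0 ⊔ x 1
    | .inf => x 0 ⊓ x 1
    | .cpl => (x 0)ᶜ
    | .zero => ⊥
    | .one => ⊤
  RelMap := fun {_} r x => match r with
    | .con => C (x 0) (x 1)

section
variable {B : Type} [BooleanAlgebra B] (C : B → B → Prop)

/-- axioms (C1) to (C4) -/
def Contact : Prop :=
  (∀ a b, C a b → a ≠ ⊥ ∧ b ≠ ⊥) ∧ (∀ a b c, C a (b ⊔ c) ↔ C a b ∨ C a c) ∧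
    (∀ a b, C a b → C b a) ∧ ∀ a b, a ⊓ b ≠ ⊥ → C a b

def Clan (G : Set B) : Prop :=
  G.Nonempty ∧ ⊥ ∉ G ∧ (∀ a b, a ∈ G → a ≤ b → b ∈ G) ∧ (∀ a b, a ⊔ b ∈ G → a ∈ G ∨ b ∈ G) ∧
    ∀ a ∈ G, ∀ b ∈ G, C a b

def Cluster (G : Set B) : Prop := Clan C G ∧ ∀ a, (∀ b ∈ G, C a b) → a ∈ G

def CoEnd (G : Set B) : Prop := Cluster C G ∧ ∀ a, a ∉ G → ∃ b, b ∉ G ∧ ¬ C a bᶜ

def Reg : Prop := ∀ a b, C a b → ∃ G, CoEnd C G ∧ a ∈ G ∧ b ∈ G
end

abbrev Om := ℕ → Bool
def Cyl (y : Om) (n : ℕ) : Set Om := {z | ∀ i < n, z i = y i}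
def near (y : Om) (n : ℕ) (z : Om) : Prop :=
  z = y ∨ ∃ m, n ≤ m ∧ Even m ∧ z ∈ Cyl y m ∧ z m ≠ y m
def AA (x : Set Om) : Prop := ∀ y, ∃ n, ∀ z, near y n z → (z ∈ x ↔ y ∈ x)
def BB (x : Set Om) : Prop := ∃ n, ∀ y z, z ∈ Cyl y n → (z ∈ x ↔ y ∈ x)

lemma cyl_mono {y : Om} {n m : ℕ} (h : n ≤ m) : Cyl y m ⊆ Cyl y n :=
  fun _ hz i hi => hz i (by omega)
lemma self_cyl (y : Om) (n : ℕ) : y ∈ Cyl y n := fun _ _ => rfl
lemma near_mono {y z : Om} {n m : ℕ} (h : n ≤ m) (hz : near y m z) : near y n z :=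
  hz.imp id fun ⟨k, h1, h2⟩ => ⟨k, h.trans h1, h2⟩
lemma near_cyl {y z : Om} {n : ℕ} (hz : near y n z) : z ∈ Cyl y n := by
  rcases hz with rfl | ⟨k, h1, -, h2, -⟩
  · exact self_cyl _ _
  · exact cyl_mono h1 h2
lemma BB.aa {x : Set Om} (h : BB x) : AA x := fun y =>
  h.imp fun _ hn z hz => hn y z (near_cyl hz)
lemma AA.un {x w : Set Om} (h : AA x) (k : AA w) : AA (x ∪ w) := fun y => by
  obtain ⟨n, hn⟩ := h y
  obtain ⟨m, hm⟩ := k y
  exact ⟨max n m, fun z hz => or_congr (hn z (near_mono (le_max_left _ _) hz))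
    (hm z (near_mono (le_max_right _ _) hz))⟩
lemma AA.co {x : Set Om} (h : AA x) : AA xᶜ := fun y =>
  (h y).imp fun _ hn z hz => not_congr (hn z hz)
lemma AA.it {x w : Set Om} (h : AA x) (k : AA w) : AA (x ∩ w) := by
  have := (h.co.un k.co).co
  rwa [compl_union, compl_compl, compl_compl] at this
lemma BB.un {x w : Set Om} (h : BB x) (k : BB w) : BB (x ∪ w) := by
  obtain ⟨n, hn⟩ := h
  obtain ⟨m, hm⟩ := k
  exact ⟨max n m, fun y z hz => or_congr (hn y z (cyl_mono (le_max_left _ _) hz))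
    (hm y z (cyl_mono (le_max_right _ _) hz))⟩
lemma BB.co {x : Set Om} (h : BB x) : BB xᶜ := h.imp fun _ hn y z hz => not_congr (hn y z hz)
lemma BB.it {x w : Set Om} (h : BB x) (k : BB w) : BB (x ∩ w) := by
  have := (h.co.un k.co).co
  rwa [compl_union, compl_compl, compl_compl] at this
lemma BB_cyl (y : Om) (n : ℕ) : BB (Cyl y n) :=
  ⟨n, fun _ _ hz => forall₂_congr fun i hi => by rw [hz i hi]⟩
lemma BB_bit (n : ℕ) (a : Bool) : BB {z | z n = a} :=
  ⟨n + 1, fun _ _ hz => by simp only [mem_ofPred_eq]; rw [hz n (by omega)]⟩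
lemma BB_empty : BB ∅ := ⟨0, fun _ _ _ => Iff.rfl⟩

/-- flip at `m` -/
def fl (y : Om) (m : ℕ) : Om := Function.update y m (!y m)

lemma fl_cyl {y z : Om} {m : ℕ} (h : z ∈ Cyl (fl y m) (m + 1)) : z ∈ Cyl y m ∧ z m ≠ y m := by
  refine ⟨fun i hi => ?_, ?_⟩
  · rw [h i (by omega), fl, Function.update_of_ne (by omega)]
  · rw [h m (by omega), fl, Function.update_self]; simp

lemma AA.cyl {x : Set Om} (h : AA x) (hx : x.Nonempty) : ∃ y n, Cyl y n ⊆ x := by
  obtain ⟨y, hy⟩ := hx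
  obtain ⟨n, hn⟩ := h y
  exact ⟨fl y (2 * n), 2 * n + 1, fun z hz =>
    (hn z (Or.inr ⟨2 * n, by omega, even_two_mul n, fl_cyl hz⟩)).2 hy⟩

section
variable {D : Type} [BooleanAlgebra D] (p : D → Set Om) (p0 : ∀ a, p a = ∅ ↔ a = ⊥)
  (pu : ∀ a b, p (a ⊔ b) = p a ∪ p b)
include p0 pu

omit p0 in
lemma pm {a b : D} (h : a ≤ b) : p a ⊆ p b := by
  rw [← sup_eq_right.2 h, pu]; exact subset_union_left

lemma contact : Contact fun a b => (p a ∩ p b).Nonempty := by
  refine ⟨fun a b h => ⟨?_, ?_⟩, fun a b c => ?_, fun a b h => ?_, fun a b h => ?_⟩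
  · rintro rfl; simp [(p0 ⊥).2 rfl] at h
  · rintro rfl; simp [(p0 ⊥).2 rfl] at h
  · simp only [pu, inter_union_distrib_left, union_nonempty]
  · exact h.mono fun z hz => ⟨hz.2, hz.1⟩
  · exact (nonempty_iff_ne_empty.2 fun e => h ((p0 _).1 e)).mono
      (subset_inter (pm p pu inf_le_left) (pm p pu inf_le_right))

lemma reg [Countable D] (pa : ∀ a, AA (p a))
    (pc : ∀ y n, ∃ d, p d = Cyl y n ∧ p dᶜ = (Cyl y n)ᶜ) :
    Reg fun a b => (p a ∩ p b).Nonempty := by
  intro a b hab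
  obtain ⟨x, hx⟩ := exists_surjective_nat D
  have step : ∀ (q : Om × ℕ) (d : D), ∃ r : Om × ℕ, Cyl r.1 r.2 ⊆ Cyl q.1 q.2 ∧
      (Cyl r.1 r.2 ⊆ p d ∨ p d ∩ Cyl r.1 r.2 = ∅) := by
    intro q d
    rcases (p d ∩ Cyl q.1 q.2).eq_empty_or_nonempty with h | h
    · exact ⟨q, subset_rfl, Or.inr h⟩
    · obtain ⟨y, n, hy⟩ := ((pa d).it (BB_cyl _ _).aa).cyl h
      exact ⟨(y, n), hy.trans inter_subset_right, Or.inl (hy.trans inter_subset_left)⟩
  choose f f1 f2 using step
  obtain ⟨y0, n0, h0⟩ := ((pa a).it (pa b)).cyl hab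
  let q : ℕ → Om × ℕ := fun n => Nat.rec (y0, n0) (fun n r => f r (x n)) n
  let k : ℕ → Set Om := fun n => Cyl (q n).1 (q n).2
  have ka : Antitone k := antitone_nat_of_succ_le fun n => f1 (q n) (x n)
  have kn : ∀ n, (k n).Nonempty := fun n => ⟨_, self_cyl _ _⟩
  have dec : ∀ d, (∀ n, (p d ∩ k n).Nonempty) → ∃ n, k n ⊆ p d := by
    intro d hd
    obtain ⟨n, rfl⟩ := hx d
    exact ⟨n + 1, (f2 (q n) (x n)).resolve_right (hd (n + 1)).ne_empty⟩
  have inn : ∀ d n, k n ⊆ p d → ∀ m, (p d ∩ k m).Nonempty := fun d n h m =>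
    (kn (max n m)).mono (subset_inter ((ka (le_max_left _ _)).trans h) (ka (le_max_right _ _)))
  have ha := inn a 0 (h0.trans inter_subset_left)
  refine ⟨{d | ∀ n, (p d ∩ k n).Nonempty}, ⟨⟨⟨⟨a, ha⟩, fun h => ?_, fun c d hc hcd n => ?_,
    fun c d h => ?_, fun c hc d hd => ?_⟩, fun c hc n => ?_⟩, fun c hc => ?_⟩, ha,
    inn b 0 (h0.trans inter_subset_right)⟩
  · simpa [(p0 ⊥).2 rfl] using h 0
  · exact (hc n).mono (inter_subset_inter_left _ (pm p pu hcd))
  · by_contra hn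
    simp only [mem_ofPred_eq, not_or, not_forall] at hn
    obtain ⟨⟨n, hn⟩, m, hm⟩ := hn
    obtain ⟨z, h1, h2⟩ := h (max n m)
    rw [pu] at h1
    rcases h1 with h1 | h1
    · exact hn ⟨z, h1, ka (le_max_left _ _) h2⟩
    · exact hm ⟨z, h1, ka (le_max_right _ _) h2⟩
  · obtain ⟨n, hn⟩ := dec d hd
    exact (hc n).mono (inter_subset_inter_right _ hn)
  · obtain ⟨d, hd, -⟩ := pc (q n).1 (q n).2
    have : (p c ∩ p d).Nonempty := hc d (inn d n hd.symm.subset)
    rwa [hd] at this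
  · simp only [mem_ofPred_eq, not_forall] at hc
    obtain ⟨n, hn⟩ := hc
    obtain ⟨d, hd, hd'⟩ := pc (q n).1 (q n).2
    refine ⟨dᶜ, fun h => ?_, by simp only [compl_compl, hd]; exact hn⟩
    have := h n
    rw [hd'] at this
    obtain ⟨z, h1, h2⟩ := this
    exact h1 h2
end

/-- the big algebra -/
def Big : BooleanSubalgebra (Set Om × Set Om) where
  carrier := {x | AA x.1 ∧ BB x.2}
  supClosed' := fun _ h _ k => ⟨h.1.un k.1, h.2.un k.2⟩
  infClosed' := fun _ h _ k => ⟨h.1.it k.1, h.2.it k.2⟩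
  compl_mem' := fun h => ⟨h.1.co, h.2.co⟩
  bot_mem' := ⟨BB_empty.aa, BB_empty⟩

def pi (x : Big) : Set Om := x.1.1 ∪ x.1.2
lemma pi0 (a : Big) : pi a = ∅ ↔ a = ⊥ := by
  refine ⟨fun h => ?_, by rintro rfl; exact union_self _⟩
  rw [pi, union_empty_iff] at h
  exact Subtype.ext (Prod.ext h.1 h.2)
lemma piu (a b : Big) : pi (a ⊔ b) = pi a ∪ pi b := union_union_union_comm _ _ _ _
lemma pia (a : Big) : AA (pi a) := a.2.1.un a.2.2.aa
def dg (k : Set Om) (h : BB k) : Big := ⟨(k, k), h.aa, h⟩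
lemma pi_dg (k : Set Om) (h : BB k) : pi (dg k h) = k := union_self _
def CB (a b : Big) : Prop := (pi a ∩ pi b).Nonempty

lemma no_coend (G : Set Big) : ¬ CoEnd CB G := by
  classical
  rintro ⟨⟨⟨⟨g, hg⟩, -, up, pr, cc⟩, cl⟩, ce⟩
  have top : ⊤ ∈ G := up _ _ hg le_top
  let y : Om := fun i => decide (dg _ (BB_bit i true) ∈ G)
  have hy : ∀ i, dg _ (BB_bit i (y i)) ∈ G := by
    intro i
    by_cases h : dg _ (BB_bit i true) ∈ G
    · have : y i = true := decide_eq_true h
      simp only [this]; exact h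
    · have : y i = false := decide_eq_false h
      simp only [this]
      refine (pr _ _ (up _ _ top ?_)).resolve_left h
      constructor <;> intro z _ <;> show z i = true ∨ z i = false <;> cases z i <;> simp
  have hc : ∀ n, dg _ (BB_cyl y n) ∈ G := by
    intro n
    induction n with
    | zero => exact up _ _ top ⟨fun z _ i hi => absurd hi (by omega), fun z _ i hi => absurd hi (by omega)⟩
    | succ n ih =>
      have hs : Cyl y n ⊆ Cyl y (n + 1) ∪ {z | z n = y n}ᶜ := by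
        intro z hz
        by_cases h : z n = y n
        · exact Or.inl fun i hi => by
            rcases Nat.lt_succ_iff_lt_or_eq.1 hi with h1 | rfl
            · exact hz i h1
            · exact h
        · exact Or.inr h
      refine (pr (dg _ (BB_cyl y (n + 1))) (dg _ (BB_bit n (y n)).co)
        (up _ _ ih ⟨hs, hs⟩)).resolve_right fun h => ?_
      obtain ⟨z, h1, h2⟩ := cc _ h _ (hy n)
      rw [pi_dg] at h1 h2
      exact h1 h2
  have main : ∀ (x : Set Om) (hx : AA x), (∀ n, (x ∩ Cyl y n).Nonempty) →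
      (⟨(x, ∅), hx, BB_empty⟩ : Big) ∈ G := by
    intro x hx hn
    by_contra h
    obtain ⟨b, hb, hb'⟩ := ce _ h
    obtain ⟨n, hn'⟩ := b.2.2
    obtain ⟨z, z1, z2⟩ := hn n
    have zb : z ∈ b.1.2 := by
      by_contra k
      exact hb' ⟨z, Or.inl z1, Or.inr k⟩
    have yb := (hn' y z z2).1 zb
    have sb : Cyl y n ⊆ b.1.2 := fun w hw => (hn' y w hw).2 yb
    refine hb (up ⟨(∅, b.1.2), BB_empty.aa, b.2.2⟩ _ (cl _ fun c hc' => ?_)
      ⟨empty_subset _, subset_rfl⟩)
    obtain ⟨w, w1, w2⟩ := cc _ (hc n) _ hc'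
    rw [pi_dg] at w1
    exact ⟨w, Or.inr (sb w1), w2⟩
  have uq : ∀ (z : Om) (m m' : ℕ), z ∈ Cyl y m → z m ≠ y m → z ∈ Cyl y m' → z m' ≠ y m' →
      m = m' := by
    intro z m m' h1 h2 h3 h4
    rcases lt_trichotomy m m' with h | h | h
    · exact absurd (h3 m h) h2
    · exact h
    · exact absurd (h1 m' h) h4
  have hx : AA {z | near y 0 z} := by
    intro w
    by_cases hw : w = y
    · subst hw; exact ⟨0, fun z hz => iff_of_true hz (Or.inl rfl)⟩
    · have ex : ∃ m, w m ≠ y m := Function.ne_iff.1 hw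
      have m1 := Nat.find_spec ex
      have m2 : w ∈ Cyl y (Nat.find ex) := fun i hi => not_not.1 (Nat.find_min ex hi)
      have ch : ∀ z ∈ Cyl w (Nat.find ex + 1), (near y 0 z ↔ Even (Nat.find ex)) := by
        intro z hz
        have a1 : z (Nat.find ex) ≠ y (Nat.find ex) := by rwa [hz _ (by omega)]
        have a2 : z ∈ Cyl y (Nat.find ex) := fun i hi => (hz i (by omega)).trans (m2 i hi)
        refine ⟨?_, fun h => Or.inr ⟨_, Nat.zero_le _, h, a2, a1⟩⟩
        rintro (rfl | ⟨m, -, e, b1, b2⟩)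
        · exact absurd rfl a1
        · rwa [uq z _ _ a2 a1 b1 b2]
      exact ⟨Nat.find ex + 1, fun z hz => (ch z (near_cyl hz)).trans (ch w (self_cyl _ _)).symm⟩
  have g0 := main _ hx fun n => ⟨y, Or.inl rfl, self_cyl _ _⟩
  have g1 := main _ hx.co fun n => by
    have := fl_cyl (self_cyl (fl y (2 * n + 1)) (2 * n + 1 + 1))
    refine ⟨fl y (2 * n + 1), ?_, cyl_mono (by omega) this.1⟩
    rintro (h | ⟨m, -, e, b1, b2⟩)
    · exact this.2 (congrFun h _)
    · rw [← uq _ _ _ this.1 this.2 b1 b2] at e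
      exact Nat.not_even_iff_odd.2 (odd_two_mul_add_one n) e
  obtain ⟨z, h1, h2⟩ := cc _ g0 _ g1
  simp only [pi, union_empty] at h1 h2
  exact h2 h1

def code : ∀ {n}, Fn n → ℕ
  | _, .sup => 0
  | _, .inf => 1
  | _, .cpl => 2
  | _, .zero => 3
  | _, .one => 4

instance (n : ℕ) : Countable (L.Functions n) :=
  Function.Injective.countable (f := (code : Fn n → ℕ)) fun a b h => by
    cases a <;> cases b <;> first | rfl | simp [code] at h
instance (n : ℕ) : Countable (L.Relations n) :=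
  Function.Injective.countable (f := fun _ : Rl n => (0 : ℕ)) fun a b _ => by
    cases a; cases b; rfl

/-- (Reg) is not equivalent to a first-order sentence over contact algebras. -/
theorem result (φ : L.Sentence) : ∃ (B : Type) (_ : BooleanAlgebra B) (C : B → B → Prop),
    Contact C ∧ ¬ (@Sentence.Realize L B (str B C) φ ↔ Reg C) := by
  classical
  by_contra hn
  push Not at hn
  let _ : L.Structure Big := str Big CB
  have nB : ¬ Big ⊨ φ := fun h => by
    obtain ⟨G, hG, -⟩ := (hn Big _ CB (contact pi pi0 piu)).1 h ⊤ ⊤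
      ⟨fun _ => true, Or.inl trivial, Or.inl trivial⟩
    exact no_coend G hG
  have : Infinite Big := Infinite.of_injective (fun n => dg _ (BB_bit n true)) fun n m h => by
    have h1 := congrArg pi h
    simp only [pi_dg] at h1
    have h2 : (fun i => decide (i = n)) ∈ {z : Om | z n = true} := by simp
    rw [h1] at h2
    exact (of_decide_eq_true h2).symm
  have : Countable L.Symbols := by unfold Language.Symbols; infer_instance
  let s : Set Big := range fun t : ℕ × Finset ℕ => dg _ (BB_cyl (fun i => decide (i ∈ t.2)) t.1)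
  have sc : s.Countable := countable_range _
  obtain ⟨S, hs, hS⟩ := exists_elementarySubstructure_card_eq L s (ℵ₀ : Cardinal.{0}) le_rfl
    (by simpa only [lift_id] using sc.le_aleph0)
    (by simpa only [lift_id, Language.card] using mk_le_aleph0) (by simp)
  have cS : Countable S := mk_le_aleph0_iff.1 (by simpa only [lift_id] using hS.le)
  let S' : BooleanSubalgebra Big :=
    { carrier := S
      supClosed' := fun a h b k => S.toSubstructure.fun_mem Fn.sup ![a, b] (by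
        intro i; fin_cases i; exacts [h, k])
      infClosed' := fun a h b k => S.toSubstructure.fun_mem Fn.inf ![a, b] (by
        intro i; fin_cases i; exacts [h, k])
      compl_mem' := fun {a} h => S.toSubstructure.fun_mem Fn.cpl ![a] (by
        intro i; fin_cases i; exact h)
      bot_mem' := S.toSubstructure.fun_mem Fn.zero ![] (fun i => i.elim0) }
  have : Countable S' := cS
  have p0 : ∀ a : S', pi a.1 = ∅ ↔ a = ⊥ := fun a => (pi0 a.1).trans
    ⟨fun h => Subtype.ext h, fun h => congrArg Subtype.val h⟩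
  have pu : ∀ a b : S', pi (a ⊔ b).1 = pi a.1 ∪ pi b.1 := fun a b => piu _ _
  have hr := reg (fun a : S' => pi a.1) p0 pu (fun a => pia _) fun y n => by
    have e : Cyl (fun i => decide (i ∈ (Finset.range n).filter fun j => y j = true)) n =
        Cyl y n := by
      ext z
      refine forall₂_congr fun i hi => ?_
      simp [hi]
    refine ⟨⟨_, hs ⟨(n, (Finset.range n).filter fun j => y j = true), rfl⟩⟩, ?_, ?_⟩
    · exact (union_self _).trans e
    · exact (union_self _).trans (congrArg compl e)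
  have h1 := (hn S' _ _ (contact (fun a : S' => pi a.1) p0 pu)).2 hr
  have e : (str S' fun a b => (pi a.1 ∩ pi b.1).Nonempty) = S.inducedStructure := by
    refine Structure.ext ?_ ?_
    · funext n f x; cases f <;> rfl
    · funext n r x; cases r; rfl
  rw [e] at h1
  exact nB ((S.realize_sentence φ).1 h1)

end Pool.Agent.Results.MP_50aa38_lc.NotFirstOrder
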